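import Pool.Agent.helper92.RC.Spec

set_option autoImplicit false

namespace Pool.Agent.helper92.RC

open scoped commutatorElement

universe u

/-- the iterated images -/
def TOW_up {K : ℕ → Type u} (φ : ∀ n, K (n + 1) → K n) (x : ∀ n, K n) : ℕ → ∀ n, K n
  | 0 => x
  | k + 1 => fun n => φ n (TOW_up φ x k (n + 1))

theorem TOW_val {K : ℕ → Type u} {F : Type u} (φ : ∀ n, K (n + 1) → K n) (f : ∀ n, K n → F)
    (hf : ∀ n (x : K (n + 1)), f n (φ n x) = f (n + 1) x) (x : ∀ n, K n) :
    ∀ k n, f n (TOW_up φ x k n) = (fun m => f m (x m)) (n + k) := by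
  intro k
  induction k with
  | zero => intro n; rfl
  | succ k ih =>
    intro n
    have h1 : f n (TOW_up φ x (k + 1) n) = f (n + 1) (TOW_up φ x k (n + 1)) := hf n _
    rw [h1, ih (n + 1)]
    have h2 : n + 1 + k = n + (k + 1) := by omega
    rw [h2]

theorem TOW_front {G : Type u} [Group G] (g b : ℕ → G) (h : Solv (fun k => g (k + 1)) (fun k => b (k + 1))) :
    Solv g b := by
  intro ε
  obtain ⟨z, hz⟩ := h (fun k => ε (k + 1))
  refine ⟨fun k => Nat.casesOn k ((if ε 0 then g 0 else 1) * ⁅b 0, z 0⁆) (fun j => z j), ?_⟩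
  intro k
  cases k with
  | zero => rfl
  | succ k => exact hz k

theorem TOW_pi {I : Type u} {G : I → Type u} [∀ i, Group (G i)] (g b : ℕ → ∀ i, G i)
    (h : ∀ i, Solv (fun k => g k i) (fun k => b k i)) : Solv g b := by
  intro ε
  choose z hz using fun i => h i ε
  refine ⟨fun k i => z i k, ?_⟩
  intro k
  funext i
  have h1 := hz i k
  rw [Pi.mul_apply]
  have h2 : (⁅b k, fun i => z i (k + 1)⁆ : ∀ i, G i) i = ⁅b k i, z i (k + 1)⁆ := by
    simp only [commutatorElement_def, Pi.mul_apply, Pi.inv_apply]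
  have h3 : ((if ε k then g k else 1 : ∀ i, G i)) i = if ε k then g k i else 1 := by
    split_ifs <;> rfl
  rw [h2, h3]
  exact h1

theorem TOW : STA_stmt.{u} → FB_stmt.{u} → KEY_stmt.{u} → TOW_stmt.{u} := by
  intro hSTA hFB hKEY F _ _ _ S₀
  choose nxt hnxt using fun S : St F => hSTA F S
  obtain ⟨S, hS0, hS1⟩ : ∃ S : ℕ → St F, S 0 = S₀ ∧ ∀ n, Stp (S n) (S (n + 1)) :=
    ⟨fun n => Nat.rec S₀ (fun _ s => nxt s) n, rfl, fun n => hnxt _⟩
  choose φ hφf hφn hφt using hS1
  -- the elements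
  have hex : ∀ n, ∃ b g : (S n).C (S n).d, Good (S n).f.range ((S n).f b) ((S n).f g) := by
    intro n
    obtain ⟨β, a, hgood⟩ := hFB F (S n).f.range (S n).hf
    obtain ⟨b, hb⟩ := MonoidHom.mem_range.mp hgood.1
    have ha : a ∈ (S n).f.range := by
      have h1 : (⁅(S n).f.range, (S n).f.range⁆ : Subgroup F) ≤ (S n).f.range := by
        rw [Subgroup.commutator_le]
        intro x hx y hy
        rw [commutatorElement_def]
        exact Subgroup.mul_mem _ (Subgroup.mul_mem _ (Subgroup.mul_mem _ hx hy) (Subgroup.inv_mem _ hx))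
          (Subgroup.inv_mem _ hy)
      exact h1 hgood.2.1
    obtain ⟨g, hg⟩ := MonoidHom.mem_range.mp ha
    refine ⟨b, g, ?_⟩
    rw [hb, hg]
    exact hgood
  choose b g hbg using hex
  have hfφ : ∀ n (x : (S (n + 1)).C (S (n + 1)).d), (S n).f (φ n x) = (S (n + 1)).f x := by
    intro n x
    rw [hφf n]
    rfl
  have hval := fun (x : ∀ n, (S n).C (S n).d) =>
    TOW_val (K := fun n => (S n).C (S n).d) (fun n => φ n) (fun n => (S n).f) hfφ x
  -- the systems
  have claim : ∀ o : Ordinal.{u}, ∀ n (i : (S n).I), (S n).al i = o →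
      Solv (fun k => ((TOW_up (K := fun n => (S n).C (S n).d) (fun n => φ n) g k n : (S n).C (S n).d) :
          ∀ j, (S n).G j) i)
        (fun k => ((TOW_up (K := fun n => (S n).C (S n).d) (fun n => φ n) b k n : (S n).C (S n).d) :
          ∀ j, (S n).G j) i) := by
    intro o
    induction o using WellFoundedLT.induction with
    | ind o ih =>
      intro n i hi
      apply TOW_front
      refine hφt n i (fun k => TOW_up (K := fun n => (S n).C (S n).d) (fun n => φ n) g k (n + 1))
        (fun k => TOW_up (K := fun n => (S n).C (S n).d) (fun n => φ n) b k (n + 1)) ?_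
      intro i' hi'
      exact ih _ (by rw [← hi]; exact hi') (n + 1) i' rfl
  refine hKEY F (∀ i, (S 0).G i) (S 0).C (S 0).d (S 0).hC (S 0).f
    (fun k => TOW_up (K := fun n => (S n).C (S n).d) (fun n => φ n) g k 0)
    (fun k => TOW_up (K := fun n => (S n).C (S n).d) (fun n => φ n) b k 0)
    (fun n => (S n).f.range) le_rfl ?_ ?_ ?_
  · intro k
    refine ⟨?_, ?_⟩
    · rintro _ ⟨x, rfl⟩
      exact ⟨φ k x, hfφ k x⟩
    · rintro _ ⟨x, rfl⟩ _ ⟨y, rfl⟩
      have h1 : y * φ k x * y⁻¹ ∈ (φ k).range := (hφn k).conj_mem (φ k x) ⟨x, rfl⟩ y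
      obtain ⟨x', hx'⟩ := h1
      refine ⟨x', ?_⟩
      rw [← hfφ k x', hx', map_mul, map_mul, map_inv, hfφ k x]
  · intro k
    have e1 : (S 0).f (TOW_up (K := fun n => (S n).C (S n).d) (fun n => φ n) b k 0) = (S k).f (b k) := by
      have h1 := hval b k 0
      have h2 : (fun m => (S m).f (b m)) (0 + k) = (fun m => (S m).f (b m)) k :=
        congrArg (fun m => (S m).f (b m)) (Nat.zero_add k)
      exact h1.trans h2
    have e2 : (S 0).f (TOW_up (K := fun n => (S n).C (S n).d) (fun n => φ n) g k 0) = (S k).f (g k) := by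
      have h1 := hval g k 0
      have h2 : (fun m => (S m).f (g m)) (0 + k) = (fun m => (S m).f (g m)) k :=
        congrArg (fun m => (S m).f (g m)) (Nat.zero_add k)
      exact h1.trans h2
    rw [e1, e2]
    exact hbg k
  · exact TOW_pi _ _ (fun i => claim _ 0 i rfl)

end Pool.Agent.helper92.RC
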